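import Mathlib
import Pool.Agent.Helper91.K11

/-!
# Hypergraphs with most Kneser colourings: the cover need not be equidistant

We take `k = 12` colours, `r = 8`, `ℓ = 6`, so that `c(k) = 4` and `2ℓ - r - 1 = 3`, and show that
for every large `n` the extremal hypergraphs `H_{C,8}(n)` exist and that none of them has a cover
`C` whose members meet pairwise in `3` vertices.  This refutes the conjecture of Q1.

Idea of the proof.  For nice covers `C = {t₁, …, t₄}` (pairwise intersections at most `3`) the
hypergraph `H_{C,8}(n)` has `4 * s` edges, `s = (n-6 choose 2)`, and its colourings are counted up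
to a small error as follows.  In a *pure* colouring every colour class is part of a star with one
of the centres `tᵢ`; the number of pure colourings does not depend on `C`.  Among the other
colourings, the dominant ones have exactly one non-star colour, whose class consists of a nonempty
set of edges `e` with centre other than `tᵢ`, `|e ∩ tᵢ| = 5` and `e \ tᵢ = Y` for a fixed triple
`Y` (the set of all such edges is `XR i Y`), together with edges `f ⊇ tᵢ` meeting `Y`.  Their
number is `(number of balanced maps) * 54^s * (3/2)^(3n-24) * (3 Φ(C) + o(1))`, where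
`Φ(C) = ∑ i, ∑ Y, ((4/3)^|XR i Y| - 1)`.  For equidistant covers `3 Φ(C) ≤ 148/3`, but
`3 Φ(C) ≥ 58` for `C = {S ∪ P₁, S ∪ P₂, P₁ ∪ P₂, S ∪ P₃}` with disjoint triples `S, P₁, P₂, P₃`.
-/

set_option autoImplicit false

namespace Pool.Agent.Results.MP_c675bc_co.NotEquidistant

open Finset Pool.Agent.Helper91.Kneser

variable {n : ℕ}

/-- All members of `H` have `r` elements. -/
def IsUniform (r : ℕ) (H : Finset (Finset (Fin n))) : Prop := ∀ e ∈ H, e.card = r

/-- `(k, l)`-Kneser colouring: any two distinct hyperedges of the same colour have at least `l`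
common vertices. -/
def IsKneserColouring (H : Finset (Finset (Fin n))) (k l : ℕ) (c : H → Fin k) : Prop :=
  ∀ e f : H, e ≠ f → c e = c f → l ≤ (e.1 ∩ f.1).card

/-- The number `κ(H, k, l)` of `(k, l)`-Kneser colourings of `H`. -/
noncomputable def kappa (H : Finset (Finset (Fin n))) (k l : ℕ) : ℕ :=
  Nat.card {c : H → Fin k // IsKneserColouring H k l c}

open Classical in
/-- `KC(n, r, k, l)`: the maximum of `κ(H, k, l)` over all `r`-uniform hypergraphs `H` on `n`
vertices. -/
noncomputable def maxKappa (n r k l : ℕ) : ℕ :=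
  (Finset.univ.filter (fun H : Finset (Finset (Fin n)) => IsUniform r H)).sup
    (fun H => kappa H k l)

/-- The `(C, r)`-complete hypergraph: all `r`-sets containing a member of `C`. -/
def completeHypergraph (C : Finset (Finset (Fin n))) (r : ℕ) : Finset (Finset (Fin n)) :=
  Finset.univ.filter (fun e => e.card = r ∧ ∃ t ∈ C, t ⊆ e)

lemma kappa_eq (H : Finset (Finset (Fin n))) (h8 : IsUniform 8 H) :
    kappa H 12 6 = (KC H).card := by
  classical
  unfold kappa
  apply Nat.subtype_card
  intro c
  rw [mem_KC]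
  constructor
  · intro h e f _ hc
    exact h e f hc
  · intro h e f hc
    by_cases hef : e = f
    · subst hef
      rw [Finset.inter_self, h8 _ e.2]
      norm_num
    · exact h e f hef hc

lemma kappa_le_max (r k l : ℕ) (H : Finset (Finset (Fin n))) (hH : IsUniform r H) :
    kappa H k l ≤ maxKappa n r k l := by
  classical
  unfold maxKappa
  exact Finset.le_sup (f := fun H => kappa H k l)
    (Finset.mem_filter.mpr ⟨Finset.mem_univ _, hH⟩)

lemma exists_max (n r k l : ℕ) :
    ∃ H : Finset (Finset (Fin n)), IsUniform r H ∧ kappa H k l = maxKappa n r k l := by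
  classical
  have hne : (Finset.univ.filter
      (fun H : Finset (Finset (Fin n)) => IsUniform r H)).Nonempty :=
    ⟨∅, Finset.mem_filter.mpr ⟨Finset.mem_univ _, fun e he => absurd he (Finset.notMem_empty e)⟩⟩
  obtain ⟨H, hH, hmax⟩ := Finset.exists_mem_eq_sup _ hne (fun H => kappa H k l)
  exact ⟨H, (Finset.mem_filter.mp hH).2, hmax.symm⟩

/-- A cover by `6`-sets is determined by the hypergraph. -/
lemma cover_unique (hn : 32 ≤ n) (C : Finset (Finset (Fin n))) (hC : ∀ t ∈ C, t.card = 6)
    (t : Fin 4 → Six n) (hH : completeHypergraph C 8 = Ht t) :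
    C = Finset.univ.image (fun i => (t i).1) := by
  classical
  have hW : (Finset.univ.biUnion (fun i : Fin 4 => (t i).1)).card ≤ 24 := by
    refine Finset.card_biUnion_le.trans ?_
    rw [Finset.sum_congr rfl (fun i _ => (t i).2)]
    simp
  -- fresh pairs
  have hfresh : ∀ u : Finset (Fin n), u.card = 6 → ∃ P : Finset (Fin n), P.card = 2 ∧
      Disjoint u P ∧ ∀ i, Disjoint (t i).1 P := by
    intro u hu
    have h1 : ((u ∪ Finset.univ.biUnion (fun i : Fin 4 => (t i).1))ᶜ).card ≥ 2 := by
      rw [Finset.card_compl, Fintype.card_fin]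
      have := Finset.card_union_le u (Finset.univ.biUnion (fun i : Fin 4 => (t i).1))
      omega
    obtain ⟨P, hP, hP2⟩ := Finset.exists_subset_card_eq h1
    have h2 : Disjoint (u ∪ Finset.univ.biUnion (fun i : Fin 4 => (t i).1)) P := by
      rw [Finset.disjoint_left]
      intro x hx hxP
      exact (Finset.mem_compl.mp (hP hxP)) hx
    refine ⟨P, hP2, Finset.disjoint_of_subset_left Finset.subset_union_left h2, fun i => ?_⟩
    exact Finset.disjoint_of_subset_left
      ((Finset.subset_biUnion_of_mem (fun i : Fin 4 => (t i).1) (Finset.mem_univ i)).trans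
        Finset.subset_union_right) h2
  have hsub : ∀ u v P : Finset (Fin n), u ⊆ v ∪ P → Disjoint u P → u ⊆ v := by
    intro u v P h1 h2 x hx
    rcases Finset.mem_union.mp (h1 hx) with h | h
    · exact h
    · exact absurd h (Finset.disjoint_left.mp h2 hx)
  have hleft : ∀ u ∈ C, ∃ i, (t i).1 = u := by
    intro u hu
    obtain ⟨P, hP2, hPu, hPt⟩ := hfresh u (hC u hu)
    have hmem : u ∪ P ∈ completeHypergraph C 8 := by
      unfold completeHypergraph
      rw [Finset.mem_filter]
      refine ⟨Finset.mem_univ _, ?_, u, hu, Finset.subset_union_left⟩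
      rw [Finset.card_union_of_disjoint hPu, hC u hu, hP2]
    rw [hH, mem_Ht] at hmem
    obtain ⟨_, i, hi⟩ := hmem
    refine ⟨i, Finset.eq_of_subset_of_card_le (hsub _ _ _ hi (hPt i)) ?_⟩
    rw [hC u hu, (t i).2]
  ext u
  rw [Finset.mem_image]
  constructor
  · intro hu
    obtain ⟨i, hi⟩ := hleft u hu
    exact ⟨i, Finset.mem_univ _, hi⟩
  · rintro ⟨i, _, rfl⟩
    obtain ⟨P, hP2, _, hPt⟩ := hfresh (t i).1 (t i).2
    have hmem : (t i).1 ∪ P ∈ Ht t := by
      rw [mem_Ht]
      refine ⟨?_, i, Finset.subset_union_left⟩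
      rw [Finset.card_union_of_disjoint (hPt i), (t i).2, hP2]
    rw [← hH] at hmem
    unfold completeHypergraph at hmem
    rw [Finset.mem_filter] at hmem
    obtain ⟨_, _, u, hu, hue⟩ := hmem
    obtain ⟨j, hj⟩ := hleft u hu
    have h1 : u ⊆ (t i).1 := by
      apply hsub _ _ _ hue
      rw [← hj]
      exact hPt j
    have h2 : u = (t i).1 := by
      apply Finset.eq_of_subset_of_card_le h1
      rw [hC u hu, (t i).2]
    rw [← h2]
    exact hu

/-- **Theorem** (`k = 12`, `r = 8`, `ℓ = 6`, so `c(k) = 4` and `2ℓ - r - 1 = 3`).  For all large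
`n` there is a set `C` of `6`-sets whose complete hypergraph attains the maximum `KC(n,8,12,6)`,
and every such `C` has four members, no two of which share more than `3` vertices and some two of
which share fewer than `3` vertices. -/
theorem result : ∃ n₀ : ℕ, ∀ n : ℕ, n₀ ≤ n →
    (∃ C : Finset (Finset (Fin n)), (∀ t ∈ C, t.card = 6) ∧
      kappa (completeHypergraph C 8) 12 6 = maxKappa n 8 12 6) ∧
    ∀ C : Finset (Finset (Fin n)), (∀ t ∈ C, t.card = 6) →
      kappa (completeHypergraph C 8) 12 6 = maxKappa n 8 12 6 →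
      C.card = 4 ∧ (∀ t ∈ C, ∀ t' ∈ C, t ≠ t' → (t ∩ t').card ≤ 2 * 6 - 8 - 1) ∧
      ∃ t ∈ C, ∃ t' ∈ C, t ≠ t' ∧ (t ∩ t').card < 2 * 6 - 8 - 1 := by
  classical
  obtain ⟨n₀, hn₀⟩ := extremal_structure
  refine ⟨max n₀ 32, fun n hn => ?_⟩
  have hn1 : n₀ ≤ n := (le_max_left _ _).trans hn
  have hn2 : 32 ≤ n := (le_max_right _ _).trans hn
  have key : ∀ H : Finset (Finset (Fin n)), IsUniform 8 H → kappa H 12 6 = maxKappa n 8 12 6 →
      ∃ t : Fin 4 → Six n, H = Ht t ∧ Nice t ∧ ¬ Equi t := by
    intro H h8 hmax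
    apply hn₀ n hn1 H h8
    intro H' h8'
    rw [← kappa_eq H h8, ← kappa_eq H' h8', hmax]
    exact kappa_le_max 8 12 6 H' h8'
  have huni : ∀ C : Finset (Finset (Fin n)), IsUniform 8 (completeHypergraph C 8) := by
    intro C e he
    exact (Finset.mem_filter.mp he).2.1
  constructor
  · obtain ⟨H, h8, hmax⟩ := exists_max n 8 12 6
    obtain ⟨t, hHt, _, _⟩ := key H h8 hmax
    have hC : H = completeHypergraph (Finset.univ.image (fun i => (t i).1)) 8 := by
      rw [hHt]
      ext e
      unfold completeHypergraph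
      rw [mem_Ht, Finset.mem_filter]
      constructor
      · rintro ⟨h1, i, hi⟩
        exact ⟨Finset.mem_univ _, h1, (t i).1,
          Finset.mem_image.mpr ⟨i, Finset.mem_univ _, rfl⟩, hi⟩
      · rintro ⟨_, h1, u, hu, hue⟩
        obtain ⟨i, _, rfl⟩ := Finset.mem_image.mp hu
        exact ⟨h1, i, hue⟩
    refine ⟨Finset.univ.image (fun i => (t i).1), ?_, ?_⟩
    · intro u hu
      obtain ⟨i, _, rfl⟩ := Finset.mem_image.mp hu
      exact (t i).2
    · rw [← hC, hmax]
  · intro C hC6 hmax
    obtain ⟨t, hHt, hnice, hneq⟩ := key _ (huni C) hmax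
    have hCt := cover_unique hn2 C hC6 t hHt
    have hinj : Function.Injective (fun i => (t i).1) := by
      intro i j hij
      exact nice_injective t hnice (Subtype.ext hij)
    refine ⟨?_, ?_, ?_⟩
    · rw [hCt, Finset.card_image_of_injective _ hinj]
      simp
    · intro u hu v hv huv
      rw [hCt] at hu hv
      obtain ⟨i, _, rfl⟩ := Finset.mem_image.mp hu
      obtain ⟨j, _, rfl⟩ := Finset.mem_image.mp hv
      exact hnice i j (fun h => huv (by rw [h]))
    · unfold Equi at hneq
      push Not at hneq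
      obtain ⟨i, j, hij, hcard⟩ := hneq
      rw [hCt]
      refine ⟨(t i).1, Finset.mem_image.mpr ⟨i, Finset.mem_univ _, rfl⟩, (t j).1,
        Finset.mem_image.mpr ⟨j, Finset.mem_univ _, rfl⟩, fun h => hij (hinj h), ?_⟩
      exact lt_of_le_of_ne (hnice i j hij) hcard

end Pool.Agent.Results.MP_c675bc_co.NotEquidistant
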